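import Pool.Agent.X23.HP2.Defs
import Pool.Agent.X23.HP.NoHeat

/-!
# The lamplighter group over `ℤ⁴` does not have the heat property
-/

set_option autoImplicit false

open Finset Complex
open scoped symmDiff ComplexConjugate

namespace Pool.Agent.X23.HP2

open Pool.Agent.X23.HP (WG V4 mul_lamp norm_one_add_I singleton_symmDiff mem_symmDiff' jensen
  exists_path avgP)

variable {H : Type} [NormedAddCommGroup H] [InnerProductSpace ℂ H] [CompleteSpace H]
variable {b : HilbertBasis WG ℂ H} {L : WG → H →L[ℂ] H}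

/-- the test element -/
noncomputable def xA (L : WG → H →L[ℂ] H) (A : Finset V4) (v : V4) : H →L[ℂ] H :=
  ∑ R ∈ A.powerset, ((((Real.sqrt 2)⁻¹ ^ #A : ℝ) : ℂ) * I ^ #R) • L (⟨R, v⟩ : WG)

theorem xA_insert (hL : IsLeftRegular b L) {A : Finset V4} {w : V4} (hw : w ∉ A) (v : V4)
    (ξ : H) :
    xA L (insert w A) v ξ = (((Real.sqrt 2)⁻¹ : ℝ) : ℂ) •
      (xA L A v ξ + (I : ℂ) • L (⟨{w}, 0⟩ : WG) (xA L A v ξ)) := by
  unfold xA
  simp only [ContinuousLinearMap.sum_apply, ContinuousLinearMap.smul_apply]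
  rw [Finset.sum_powerset_insert hw, smul_add, card_insert_of_notMem hw]
  congr 1
  · rw [Finset.smul_sum]
    refine Finset.sum_congr rfl fun R _ => ?_
    rw [smul_smul]
    congr 1
    rw [pow_succ]
    push_cast
    ring
  · rw [map_sum, Finset.smul_sum, Finset.smul_sum]
    refine Finset.sum_congr rfl fun R hR => ?_
    have hwR : w ∉ R := fun h => hw (mem_powerset.1 hR h)
    rw [map_smul, smul_smul, smul_smul, card_insert_of_notMem hwR]
    have e : L (⟨insert w R, v⟩ : WG) ξ = L (⟨{w}, 0⟩ : WG) (L (⟨R, v⟩ : WG) ξ) := by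
      rw [← ContinuousLinearMap.comp_apply, ← L_mul hL, mul_lamp, singleton_symmDiff hwR]
    rw [e]
    congr 1
    rw [pow_succ, pow_succ]
    push_cast
    ring

theorem norm_xA_apply (hL : IsLeftRegular b L) (A : Finset V4) (v : V4) (ξ : H) :
    ‖xA L A v ξ‖ ≤ ‖ξ‖ := by
  induction A using Finset.induction_on with
  | empty =>
    unfold xA
    simp only [powerset_empty, sum_singleton, card_empty, pow_zero, mul_one, ofReal_one, one_smul]
    exact (norm_L hL _ _).le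
  | insert w A hw ih =>
    rw [xA_insert hL hw, norm_smul]
    have h1 := norm_one_add_I (fun η : H => L (⟨{w}, 0⟩ : WG) η)
      (fun a b x y => by simp only [map_add, map_smul]) (fun x => norm_L hL _ _)
      (fun x => by
        rw [← ContinuousLinearMap.comp_apply, ← L_mul hL, mul_lamp, symmDiff_self]
        have : (⟨⊥, 0⟩ : WG) = 1 := rfl
        rw [this, L_one hL]
        rfl) (xA L A v ξ)
    have h2 : ‖xA L A v ξ + (I : ℂ) • L (⟨{w}, 0⟩ : WG) (xA L A v ξ)‖ =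
        Real.sqrt 2 * ‖xA L A v ξ‖ := by
      have h3 : (Real.sqrt 2 * ‖xA L A v ξ‖) ^ 2 = 2 * ‖xA L A v ξ‖ ^ 2 := by
        rw [mul_pow, Real.sq_sqrt (by norm_num)]
      rw [← h3] at h1
      exact (pow_left_inj₀ (norm_nonneg _) (by positivity) two_ne_zero).1 h1
    rw [h2]
    have h4 : ‖(((Real.sqrt 2)⁻¹ : ℝ) : ℂ)‖ = (Real.sqrt 2)⁻¹ := by
      rw [norm_real, Real.norm_of_nonneg (by positivity)]
    rw [h4, ← mul_assoc, inv_mul_cancel₀ (by positivity), one_mul]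
    exact ih

theorem norm_xA (hL : IsLeftRegular b L) (A : Finset V4) (v : V4) : ‖xA L A v‖ ≤ 1 :=
  ContinuousLinearMap.opNorm_le_bound _ zero_le_one fun ξ => by
    rw [one_mul]
    exact norm_xA_apply hL A v ξ

theorem xA_mem (A : Finset V4) (v : V4) : xA L A v ∈ Cr L :=
  Submodule.sum_mem _ fun R _ => Submodule.smul_mem _ _ (L_mem L _)

/-- A positive combination has large norm. -/
theorem norm_pos_comb (hL : IsLeftRegular b L) (A : Finset V4) (v : V4)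
    (P : Finset (Finset V4)) (hP : P ⊆ A.powerset)
    (a : Finset V4 → ℝ) (ha : ∀ R ∈ P, 0 ≤ a R) :
    ∑ R ∈ P, a R ≤ ‖∑ R ∈ P, ((a R : ℝ) : ℂ) • L (⟨R, v⟩ : WG)‖ := by
  set ζ : H := ∑ R' ∈ A.powerset, b (⟨R', 0⟩ : WG) with hζ
  have h1 : ∀ R ∈ P, L (⟨R, 0⟩ : WG) ζ = ζ := by
    intro R hR
    have hR' := mem_powerset.1 (hP hR)
    rw [hζ, map_sum]
    have e0 : ∀ S : Finset V4, L (⟨R, 0⟩ : WG) (b ⟨S, 0⟩) = b ⟨R ∆ S, 0⟩ := by
      intro S
      rw [hL, mul_lamp]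
    simp only [e0]
    apply Finset.sum_nbij' (fun S => R ∆ S) (fun S => R ∆ S)
    · intro S hS
      rw [mem_powerset] at hS ⊢
      intro x hx
      rw [mem_symmDiff'] at hx
      by_cases hxw : x ∈ R
      · exact hR' hxw
      · exact hS (by tauto)
    · intro S hS
      rw [mem_powerset] at hS ⊢
      intro x hx
      rw [mem_symmDiff'] at hx
      by_cases hxw : x ∈ R
      · exact hR' hxw
      · exact hS (by tauto)
    · intro S _
      rw [symmDiff_symmDiff_cancel_left]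
    · intro S _
      rw [symmDiff_symmDiff_cancel_left]
    · intro S _
      rfl
  set η : H := L (⟨∅, v⟩ : WG)⁻¹ ζ with hη
  have h2 : ∀ R ∈ P, L (⟨R, v⟩ : WG) η = ζ := by
    intro R hR
    have e : (⟨R, v⟩ : WG) = ⟨R, 0⟩ * ⟨∅, v⟩ := by
      rw [mul_lamp]
      congr 1
      exact (symmDiff_bot R).symm
    rw [hη, ← ContinuousLinearMap.comp_apply, ← L_mul hL, e, mul_assoc, mul_inv_cancel, mul_one]
    exact h1 R hR
  have h3 : (∑ R ∈ P, ((a R : ℝ) : ℂ) • L (⟨R, v⟩ : WG)) η = ((∑ R ∈ P, a R : ℝ) : ℂ) • ζ := by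
    rw [ContinuousLinearMap.sum_apply]
    push_cast
    rw [Finset.sum_smul]
    refine Finset.sum_congr rfl fun R hR => ?_
    change ((a R : ℝ) : ℂ) • L (⟨R, v⟩ : WG) η = _
    rw [h2 R hR]
  have h4 : ‖η‖ = ‖ζ‖ := norm_L hL _ _
  have h5 : ζ ≠ 0 := by
    intro h0
    have h6 : inner ℂ (b (1 : WG)) ζ = 0 := by rw [h0, inner_zero_right]
    have h7 : inner ℂ (b (1 : WG)) ζ = 1 := by
      rw [hζ, inner_sum, Finset.sum_eq_single ∅]
      · exact inner_b b (1 : WG)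
      · intro R' _ hR'
        apply inner_b_ne
        intro h8
        apply hR'
        have := congrArg WG.lamp h8
        exact this.symm
      · intro h8
        exact absurd (empty_mem_powerset A) h8
    rw [h6] at h7
    exact zero_ne_one h7
  have h6 : 0 < ‖ζ‖ := norm_pos_iff.2 h5
  have h7 : 0 ≤ ∑ R ∈ P, a R := Finset.sum_nonneg ha
  have h8 := (∑ R ∈ P, ((a R : ℝ) : ℂ) • L (⟨R, v⟩ : WG)).le_opNorm η
  rw [h3, norm_smul, norm_real, Real.norm_of_nonneg h7, h4] at h8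
  exact le_of_mul_le_mul_right h8 h6

theorem coef_sum_lam (hL : IsLeftRegular b L) (s : Finset (Finset V4)) (v : V4)
    (a : Finset V4 → ℂ) (R : Finset V4)
    (hR : R ∈ s) : coef b (∑ S ∈ s, a S • L (⟨S, v⟩ : WG)) (⟨R, v⟩ : WG) = a R := by
  rw [← coefL_apply, map_sum, Finset.sum_eq_single R]
  · rw [map_smul, coefL_apply, coef_L_self hL, smul_eq_mul, mul_one]
  · intro S _ hS
    rw [map_smul, coefL_apply, coef_L_ne hL, smul_zero]
    intro h
    exact hS (congrArg WG.lamp h).symm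
  · intro h
    exact absurd hR h

/-- The key inequality. -/
theorem key_ineq (hL : IsLeftRegular b L) {d : WG → ℝ} {t : ℝ} (M : Cr L →ₗ[ℂ] Cr L)
    (hM : ∀ (x : Cr L) (g : WG), (x : H →L[ℂ] H) = L g →
      (M x : H →L[ℂ] H) = (Real.exp (-t * d g) : ℂ) • L g)
    (C : ℝ) (hC : ∀ (S : Finset WG) (x : Cr L),
      ‖∑ g ∈ S, coef b (M x : H →L[ℂ] H) g • L g‖ ≤ C * ‖(x : H →L[ℂ] H)‖)
    (A : Finset V4) (v : V4) :
    (Real.sqrt 2)⁻¹ ^ #A * ∑ R ∈ A.powerset, Real.exp (-t * d ⟨R, v⟩) ≤ 4 * |C| := by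
  set c : ℝ := (Real.sqrt 2)⁻¹ ^ #A with hc
  have hc0 : 0 ≤ c := by positivity
  set x : Cr L := ⟨xA L A v, xA_mem A v⟩ with hx
  have hxs : x = ∑ R ∈ A.powerset, ((c : ℂ) * I ^ #R) • (⟨L (⟨R, v⟩ : WG), L_mem L _⟩ : Cr L) := by
    apply Subtype.ext
    rw [Submodule.coe_sum]
    rfl
  have hMx : (M x : H →L[ℂ] H) = ∑ R ∈ A.powerset,
      ((c : ℂ) * I ^ #R * (Real.exp (-t * d ⟨R, v⟩) : ℂ)) • L (⟨R, v⟩ : WG) := by
    rw [hxs, map_sum, Submodule.coe_sum]
    refine Finset.sum_congr rfl fun R _ => ?_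
    rw [map_smul, Submodule.coe_smul, hM _ (⟨R, v⟩ : WG) rfl, smul_smul]
  have hr : ∀ r : ℕ, ∑ R ∈ A.powerset with #R % 4 = r, c * Real.exp (-t * d ⟨R, v⟩) ≤ |C| := by
    intro r
    set P : Finset (Finset V4) := {R ∈ A.powerset | #R % 4 = r} with hP
    have hPs : P ⊆ A.powerset := filter_subset _ _
    have h1 := hC (P.image fun R => (⟨R, v⟩ : WG)) x
    rw [Finset.sum_image (by
      intro R _ R' _ h
      exact congrArg WG.lamp h)] at h1
    have h2 : ∑ R ∈ P, coef b (M x : H →L[ℂ] H) (⟨R, v⟩ : WG) • L (⟨R, v⟩ : WG) =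
        (I ^ r : ℂ) • ∑ R ∈ P, ((c * Real.exp (-t * d ⟨R, v⟩) : ℝ) : ℂ) • L (⟨R, v⟩ : WG) := by
      rw [Finset.smul_sum]
      refine Finset.sum_congr rfl fun R hR => ?_
      rw [hMx, coef_sum_lam hL _ v
        (fun R => (c : ℂ) * I ^ #R * (Real.exp (-t * d ⟨R, v⟩) : ℂ)) R (hPs hR), smul_smul]
      congr 1
      have h3 : (I : ℂ) ^ #R = I ^ r := by
        have h4 := (mem_filter.1 hR).2
        rw [← h4]
        conv_lhs => rw [← Nat.div_add_mod (#R) 4, pow_add, pow_mul, I_pow_four, one_pow, one_mul]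
      rw [h3]
      push_cast
      ring
    rw [h2, norm_smul, norm_pow, norm_I, one_pow, one_mul] at h1
    have h3 := norm_pos_comb hL A v P hPs (fun R => c * Real.exp (-t * d ⟨R, v⟩))
      (fun R _ => by positivity)
    refine h3.trans (h1.trans ?_)
    have h4 : ‖(x : H →L[ℂ] H)‖ ≤ 1 := norm_xA hL A v
    calc C * ‖(x : H →L[ℂ] H)‖ ≤ |C| * ‖(x : H →L[ℂ] H)‖ := by
          gcongr
          exact le_abs_self C
      _ ≤ |C| * 1 := by gcongr
      _ = |C| := mul_one _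
  rw [Finset.mul_sum]
  rw [← Finset.sum_fiberwise_of_maps_to (s := A.powerset) (t := Finset.range 4)
    (g := fun R => #R % 4) (fun R _ => mem_range.2 (Nat.mod_lt _ (by norm_num)))]
  calc _ ≤ ∑ r ∈ Finset.range 4, |C| := Finset.sum_le_sum fun r _ => hr r
    _ = 4 * |C| := by simp

theorem not_heat (hL : IsLeftRegular b L) {d : WG → ℝ} (hd : HP.NegDef d) :
    ¬ HeatWrt b L d := by
  intro hH
  obtain ⟨K, hK, hp⟩ := exists_path hd
  have hlog : 0 < Real.log 1.2 := Real.log_pos (by norm_num)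
  obtain ⟨M0, hM0, hM0', hCF0⟩ := hH (Real.log 1.2 / K) (by positivity)
  obtain ⟨K', hK'0⟩ := hM0.2.2.2
  set M : Cr L →ₗ[ℂ] Cr L := toLin hM0 with hMdef
  have hK' : ∀ x : Cr L, ‖(M x : H →L[ℂ] H)‖ ≤ K' * ‖(x : H →L[ℂ] H)‖ :=
    fun x => hK'0 x x.2
  have hM : ∀ (x : Cr L) (g : WG), (x : H →L[ℂ] H) = L g →
      (M x : H →L[ℂ] H) = (Real.exp (-(Real.log 1.2 / K) * d g) : ℂ) • L g := by
    intro x g hxg
    rw [hMdef, toLin_apply, hxg]
    exact hM0' g
  have hCF : ∀ x : Cr L, (M x : H →L[ℂ] H) ∈ CF b L := fun x => hCF0 x x.2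
  obtain ⟨C, hC⟩ := uniform_bound M K' hK' hCF
  have hρ : (1.1 : ℝ) ≤ Real.sqrt 2 / 1.2 := by
    rw [le_div_iff₀ (by norm_num)]
    apply Real.le_sqrt_of_sq_le
    norm_num
  obtain ⟨k, hk⟩ := pow_unbounded_of_one_lt (40 * (4 * |C|)) (one_lt_two : (1 : ℝ) < 2)
  obtain ⟨A, v, hA1, hA2⟩ := hp k
  have h1 := key_ineq hL M hM C hC A v
  have h2 := jensen A (fun S => d ⟨S, v⟩) (Real.log 1.2 / K)
  have h3 : ((1.2 : ℝ)⁻¹) ^ #A ≤
      Real.exp (-(Real.log 1.2 / K) * avgP A (fun S => d ⟨S, v⟩)) := by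
    have e1 : ((1.2 : ℝ)⁻¹) ^ #A = Real.exp (-(Real.log 1.2 / K) * (K * #A)) := by
      have e2 : -(Real.log 1.2 / K) * (K * (#A : ℝ)) = (#A : ℝ) * Real.log (1.2 : ℝ)⁻¹ := by
        rw [Real.log_inv]
        field_simp
      rw [e2, Real.exp_nat_mul, Real.exp_log (by norm_num)]
    rw [e1]
    apply Real.exp_le_exp.2
    have : Real.log 1.2 / K * avgP A (fun S => d ⟨S, v⟩) ≤ Real.log 1.2 / K * (K * #A) := by
      gcongr
    linarith
  have h4 : (Real.sqrt 2 / 1.2) ^ #A ≤ 4 * |C| := by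
    calc (Real.sqrt 2 / 1.2) ^ #A = (Real.sqrt 2)⁻¹ ^ #A * (((1.2 : ℝ)⁻¹) ^ #A * 2 ^ #A) := by
          rw [← mul_pow, ← mul_pow]
          congr 1
          have h5 : Real.sqrt 2 * Real.sqrt 2 = 2 := Real.mul_self_sqrt (by norm_num)
          have h6 : Real.sqrt 2 ≠ 0 := by positivity
          field_simp
          nlinarith
      _ ≤ (Real.sqrt 2)⁻¹ ^ #A *
          (Real.exp (-(Real.log 1.2 / K) * avgP A (fun S => d ⟨S, v⟩)) * 2 ^ #A) := by gcongr
      _ ≤ (Real.sqrt 2)⁻¹ ^ #A *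
          ∑ R ∈ A.powerset, Real.exp (-(Real.log 1.2 / K) * d ⟨R, v⟩) := by gcongr
      _ ≤ 4 * |C| := h1
  have h5 : 1 + (#A : ℝ) * 0.1 ≤ (Real.sqrt 2 / 1.2) ^ #A := by
    calc 1 + (#A : ℝ) * 0.1 ≤ (1 + 0.1 : ℝ) ^ #A := one_add_mul_le_pow (by norm_num) _
      _ ≤ (Real.sqrt 2 / 1.2) ^ #A := by
          gcongr
          linarith
  linarith

theorem not_Heat : ¬ Heat WG := by
  rintro ⟨H, _, _, _, b, L, hL, d, hd, hH⟩
  exact not_heat hL hd hH

end Pool.Agent.X23.HP2
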