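import Pool.Agent.X23.HP.Defs

/-!
# The heat property: definitions in a Hilbert space with an orthonormal basis indexed by `G`
-/

set_option autoImplicit false

open Complex
open scoped ComplexConjugate

namespace Pool.Agent.X23.HP2

variable {G : Type} [Group G]
variable {H : Type} [NormedAddCommGroup H] [InnerProductSpace ℂ H] [CompleteSpace H]

/-- `L` is the left regular representation of `G` on the Hilbert space `H ≅ ℓ²(G)` with the
orthonormal basis `b = (δ_g)`: `λ(g) δ_h = δ_{gh}`. -/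
def IsLeftRegular (b : HilbertBasis G ℂ H) (L : G → H →L[ℂ] H) : Prop :=
  ∀ g h, L g (b h) = b (g * h)

/-- `C_r^*(G)`: the norm closure of the linear span of the `λ(g)`. -/
def CrSet (L : G → H →L[ℂ] H) : Set (H →L[ℂ] H) :=
  closure (Submodule.span ℂ (Set.range L) : Set (H →L[ℂ] H))

/-- `C_r^*(G)` as a subspace -/
noncomputable def Cr (L : G → H →L[ℂ] H) : Submodule ℂ (H →L[ℂ] H) :=
  (Submodule.span ℂ (Set.range L)).topologicalClosure

theorem mem_CrSet (L : G → H →L[ℂ] H) (x : H →L[ℂ] H) : x ∈ CrSet L ↔ x ∈ Cr L := Iff.rfl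

/-- The Fourier coefficients `⟨x δ_e, δ_g⟩`. -/
noncomputable def coef (b : HilbertBasis G ℂ H) (x : H →L[ℂ] H) (g : G) : ℂ :=
  inner ℂ (b g) (x (b 1))

/-- `CF(G)`: the elements of `C_r^*(G)` whose Fourier series converges in operator norm as an
unordered sum. -/
def CF (b : HilbertBasis G ℂ H) (L : G → H →L[ℂ] H) : Set (H →L[ℂ] H) :=
  {x | x ∈ CrSet L ∧ Summable fun g : G => coef b x g • L g}

/-- `M` restricts to a bounded linear map `C_r^*(G) → C_r^*(G)`. -/
def IsBddLin (L : G → H →L[ℂ] H) (M : (H →L[ℂ] H) → (H →L[ℂ] H)) : Prop :=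
  (∀ x ∈ CrSet L, M x ∈ CrSet L) ∧
  (∀ x ∈ CrSet L, ∀ y ∈ CrSet L, M (x + y) = M x + M y) ∧
  (∀ a : ℂ, ∀ x ∈ CrSet L, M (a • x) = a • M x) ∧
  ∃ K : ℝ, ∀ x ∈ CrSet L, ‖M x‖ ≤ K * ‖x‖

/-- The heat property with respect to `d`: for every `t > 0` there is a bounded linear map
`M = M_t^d : C_r^*(G) → C_r^*(G)` with `M(λ(g)) = e^{-t d(g)} λ(g)` for all `g`, and it maps
`C_r^*(G)` to `CF(G)`. -/
def HeatWrt (b : HilbertBasis G ℂ H) (L : G → H →L[ℂ] H) (d : G → ℝ) : Prop :=
  ∀ t : ℝ, 0 < t → ∃ M : (H →L[ℂ] H) → (H →L[ℂ] H), IsBddLin L M ∧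
    (∀ g : G, M (L g) = (Real.exp (-t * d g) : ℂ) • L g) ∧ ∀ x ∈ CrSet L, M x ∈ CF b L

/-- The left regular representation exists (on some copy of `ℓ²(G)`). -/
def HasRegular (G : Type) [Group G] : Prop :=
  ∃ (H : Type) (_ : NormedAddCommGroup H) (_ : InnerProductSpace ℂ H) (_ : CompleteSpace H)
    (b : HilbertBasis G ℂ H) (L : G → H →L[ℂ] H), IsLeftRegular b L

/-- The heat property: with respect to some `d ∈ ND_0^+(G)`, on some (any) copy of `ℓ²(G)`. -/
def Heat (G : Type) [Group G] : Prop :=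
  ∃ (H : Type) (_ : NormedAddCommGroup H) (_ : InnerProductSpace ℂ H) (_ : CompleteSpace H)
    (b : HilbertBasis G ℂ H) (L : G → H →L[ℂ] H),
    IsLeftRegular b L ∧ ∃ d : G → ℝ, HP.NegDef d ∧ HeatWrt b L d

variable {b : HilbertBasis G ℂ H} {L : G → H →L[ℂ] H}

theorem dense_b (b : HilbertBasis G ℂ H) :
    Dense ((Submodule.span ℂ (Set.range b) : Submodule ℂ H) : Set H) := by
  exact Submodule.dense_iff_topologicalClosure_eq_top.2 b.dense_span

theorem clm_ext (b : HilbertBasis G ℂ H) {A B : H →L[ℂ] H} (h : ∀ g, A (b g) = B (b g)) :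
    A = B := by
  apply ContinuousLinearMap.ext_on (dense_b b)
  rintro _ ⟨g, rfl⟩
  exact h g

theorem L_mul (hL : IsLeftRegular b L) (g h : G) : L (g * h) = (L g).comp (L h) :=
  clm_ext b fun k => by rw [ContinuousLinearMap.comp_apply, hL, hL, hL, mul_assoc]

theorem L_one (hL : IsLeftRegular b L) : L 1 = ContinuousLinearMap.id ℂ H :=
  clm_ext b fun k => by rw [hL, one_mul]; rfl

theorem inner_b (b : HilbertBasis G ℂ H) (g : G) : inner ℂ (b g) (b g) = (1 : ℂ) := by
  have := b.orthonormal.1 g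
  rw [inner_self_eq_norm_sq_to_K, this]
  simp

theorem inner_b_ne (b : HilbertBasis G ℂ H) {g h : G} (hgh : g ≠ h) :
    inner ℂ (b g) (b h) = (0 : ℂ) := b.orthonormal.2 hgh

theorem norm_L (hL : IsLeftRegular b L) (g : G) (ξ : H) : ‖L g ξ‖ = ‖ξ‖ := by
  have h1 : ContinuousLinearMap.adjoint (L g) ∘L (L g) = 1 := by
    apply clm_ext b
    intro h
    apply b.repr.injective
    ext k
    rw [b.repr_apply_apply, b.repr_apply_apply, ContinuousLinearMap.comp_apply,
      ContinuousLinearMap.adjoint_inner_right, hL, hL]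
    change _ = inner ℂ (b k) (b h)
    by_cases hkh : k = h
    · subst hkh
      rw [inner_b, inner_b]
    · rw [inner_b_ne b hkh, inner_b_ne b (fun h1 => hkh (mul_left_cancel h1))]
  exact (ContinuousLinearMap.norm_map_iff_adjoint_comp_self (L g)).2 h1 ξ

theorem coef_L_self (hL : IsLeftRegular b L) (g : G) : coef b (L g) g = 1 := by
  unfold coef
  rw [hL, mul_one, inner_b]

theorem coef_L_ne (hL : IsLeftRegular b L) {g h : G} (hgh : h ≠ g) : coef b (L g) h = 0 := by
  unfold coef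
  rw [hL, mul_one, inner_b_ne b hgh]

theorem L_mem (L : G → H →L[ℂ] H) (g : G) : L g ∈ Cr L :=
  Submodule.le_topologicalClosure _ (Submodule.subset_span ⟨g, rfl⟩)

/-- the coefficient as a linear functional -/
noncomputable def coefL (b : HilbertBasis G ℂ H) (g : G) : (H →L[ℂ] H) →ₗ[ℂ] ℂ where
  toFun := fun x => coef b x g
  map_add' := fun x y => by
    simp only [coef, ContinuousLinearMap.add_apply, inner_add_right]
  map_smul' := fun c x => by
    simp only [coef, ContinuousLinearMap.smul_apply, inner_smul_right, RingHom.id_apply,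
      smul_eq_mul]

theorem coefL_bound (b : HilbertBasis G ℂ H) (g : G) (x : H →L[ℂ] H) :
    ‖coefL b g x‖ ≤ 1 * ‖x‖ := by
  change ‖inner ℂ (b g) (x (b 1))‖ ≤ _
  refine (norm_inner_le_norm _ _).trans ?_
  rw [b.orthonormal.1 g]
  gcongr
  refine (x.le_opNorm _).trans ?_
  rw [b.orthonormal.1 1, mul_one]

theorem coefL_apply (b : HilbertBasis G ℂ H) (g : G) (x : H →L[ℂ] H) :
    coefL b g x = coef b x g := rfl

/-- The uniform bound. -/
theorem uniform_bound (M : Cr L →ₗ[ℂ] Cr L) (K : ℝ)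
    (hK : ∀ x : Cr L, ‖(M x : H →L[ℂ] H)‖ ≤ K * ‖(x : H →L[ℂ] H)‖)
    (hCF : ∀ x : Cr L, (M x : H →L[ℂ] H) ∈ CF b L) :
    ∃ C, ∀ (S : Finset G) (x : Cr L),
      ‖∑ g ∈ S, coef b (M x : H →L[ℂ] H) g • L g‖ ≤ C * ‖(x : H →L[ℂ] H)‖ :=
  HP.ub_abs (Cr L) (Submodule.isClosed_topologicalClosure _) M K hK (fun g => coefL b g)
    (fun _ => 1) (fun g x => coefL_bound b g x) (fun g => L g) (fun x => (hCF x).2)

/-- the linear map of `IsBddLin` -/
noncomputable def toLin {M : (H →L[ℂ] H) → (H →L[ℂ] H)} (h : IsBddLin L M) :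
    Cr L →ₗ[ℂ] Cr L where
  toFun := fun x => ⟨M x, h.1 x x.2⟩
  map_add' := fun x y => Subtype.ext (h.2.1 x x.2 y y.2)
  map_smul' := fun a x => Subtype.ext (h.2.2.1 a x x.2)

theorem toLin_apply {M : (H →L[ℂ] H) → (H →L[ℂ] H)} (h : IsBddLin L M) (x : Cr L) :
    (toLin h x : H →L[ℂ] H) = M x := rfl

/-- The left regular representation on `ℓ²(G)` is an instance. -/
theorem exists_regular (G : Type) [Group G] : HasRegular G := by
  classical
  refine ⟨HP.Ell G, inferInstance, inferInstance, inferInstance,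
    HilbertBasis.ofRepr (LinearIsometryEquiv.refl ℂ _), HP.lam, ?_⟩
  have hb : ∀ g : G, (HilbertBasis.ofRepr (LinearIsometryEquiv.refl ℂ _) :
      HilbertBasis G ℂ (HP.Ell G)) g = HP.dlt g := by
    intro g
    ext k
    by_cases hk : k = g
    · subst hk
      rw [HP.dlt_apply_self]
      exact lp.single_apply_self (E := fun _ : G => ℂ) 2 k (1 : ℂ)
    · rw [HP.dlt_apply_ne hk]
      exact lp.single_apply_ne (E := fun _ : G => ℂ) 2 g (1 : ℂ) hk
  intro g h
  rw [hb, hb, HP.lam_dlt]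

end Pool.Agent.X23.HP2
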